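import Pool.Agent.Helper27.UC.Goals

/-!
PROJECT UC (MP_d3128a_ag), packet FOR4 (helper60).
-/

set_option autoImplicit false

noncomputable section

namespace Pool.Agent.Helper60.UC.FOR4

open Polynomial Module Pool.Agent.Helper97.Tate Pool.Agent.Helper27.UC

theorem cof_hc {K : Type} [Field K] (k : ℕ) (f : R2 K) (i j : ℕ) (h : cof i j f = 0) :
    cof i j (hc k f) = 0 := by
  have h1 : hc k f = ∑ j ∈ Finset.range (k + 1),
    Polynomial.monomial j (Polynomial.monomial (k - j) (cof (k - j) j f)) := rfl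
  rw [h1]
  unfold cof at h ⊢
  rw [Polynomial.finsetSum_coeff, Polynomial.finsetSum_coeff]
  refine Finset.sum_eq_zero fun l _ => ?_
  rw [Polynomial.coeff_monomial]
  by_cases hl : l = j
  · subst hl
    rw [if_pos rfl, Polynomial.coeff_monomial]
    by_cases hi : k - l = i
    · subst hi
      rw [if_pos rfl]
      exact h
    · rw [if_neg hi]
  · rw [if_neg hl, Polynomial.coeff_zero]

theorem t (hSHF : S_SHF) (hFOUR : S_FOUR) : S_FOR4 := by
  intro K _ _ m f p0 q0 p1 q1 hdet hpts
  obtain ⟨-, -, -, s4, s5, s6, -, s8, s9⟩ := hSHF K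
  have hF : ∀ e e' : K, (e = 1 ∨ e = -1) → (e' = 1 ∨ e' = -1) →
      sh e e' (subt (lin p0 q0) (lin p1 q1) f) ∈ Od m := by
    intro e e' he he'
    rw [s9]
    exact s4 m _ _ _ _ _ (hpts e e' he he')
  obtain ⟨hA, hB⟩ := hFOUR K m (subt (lin p0 q0) (lin p1 q1) f) hF
  refine ⟨fun hf i j hi => ?_, fun h => ?_⟩
  · rw [← s8]
    exact cof_hc _ _ _ _ (hA (s5 _ _ _ _ _ _ hf) i j hi)
  · rcases Nat.eq_zero_or_pos m with hm | hm
    · subst hm
      ext j i
      have := h i j (Nat.zero_le _)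
      unfold cof at this
      rw [this]
      simp
    · have h1 : f ∈ De (2 * m - 1) := by
        intro i j hij
        exact h i j (by omega)
      have h2 := s5 _ _ p0 q0 p1 q1 h1
      refine s6 f p0 q0 p1 q1 hdet (hB fun i j hij => h2 i j (by omega))

end Pool.Agent.Helper60.UC.FOR4
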